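import Pool.Agent.V11185.Delta

/-!
# MP_973d57_co: odd-dimensional Hermitian isotropic Grassmannians
-/

set_option autoImplicit false

namespace Pool.Agent.Results.MP_973d57_co.IsotropicSubspaces

open Matrix Module Pool.Agent.V11185.Delta

variable {K V : Type} [Field K] [StarRing K] [AddCommGroup V] [Module K V] {n : ℕ}

/-- The basis `e_1, ..., e_n, f_1, ..., f_n, g` is adapted to the sesquilinear form `b`: the
vectors `e_i` and `f_i` are isotropic, `b (e_i, f_i) = 1`, the planes spanned by `e_i` and `f_i`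
are pairwise orthogonal and orthogonal to `g`, and `b (g, g) = α ≠ 0`. Here `e_i` is `x (inl i)`,
`f_i` is `x (inr (inl i))` and `g` is `x (inr (inr ()))`. -/
structure IsAdapted (b : V →ₗ[K] V →ₛₗ[starRingEnd K] K) (x : Basis (Fin n ⊕ Fin n ⊕ Unit) K V)
    (α : K) : Prop where
  ee : ∀ i j, b (x (.inl i)) (x (.inl j)) = 0
  ff : ∀ i j, b (x (.inr (.inl i))) (x (.inr (.inl j))) = 0
  ef : ∀ i j, b (x (.inl i)) (x (.inr (.inl j))) = if i = j then 1 else 0
  eg : ∀ i, b (x (.inl i)) (x (.inr (.inr ()))) = 0
  fg : ∀ i, b (x (.inr (.inl i))) (x (.inr (.inr ()))) = 0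
  gg : b (x (.inr (.inr ()))) (x (.inr (.inr ()))) = α
  ne_zero : α ≠ 0

/-- The square submatrix with the columns `e_i` for `i ∈ S` and `f_i` for `i ∉ S` of the coordinate
matrix of a basis `m` of the subspace `L`. -/
noncomputable def sub (x : Basis (Fin n ⊕ Fin n ⊕ Unit) K V) {L : Submodule K V} (m : Basis (Fin n) K L)
    (S : Finset (Fin n)) : Matrix (Fin n) (Fin n) K :=
  Matrix.of fun i j => x.repr (m i : V) (if j ∈ S then .inl j else .inr (.inl j))

/-- **For every isotropic subspace `L` of dimension `n`** of the `(2 n + 1)`-dimensional Hermitian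
space `V` of Witt index `n`, the function `S ↦ p_S(L)` is a valuated Delta-matroid. -/
theorem result (ν : AddValuation K (WithTop ℝ)) (hν : ∀ a, ν (star a) = ν a)
    (b : V →ₗ[K] V →ₛₗ[starRingEnd K] K) (hb : ∀ y z, b y z = star (b z y))
    (x : Basis (Fin n ⊕ Fin n ⊕ Unit) K V) (α : K) (hx : IsAdapted b x α)
    (L : Submodule K V) (hL : ∀ y ∈ L, ∀ z ∈ L, b y z = 0) (m : Basis (Fin n) K L) :
    IsValuatedDelta fun S => ν (sub x m S).det := by
  classical
  set P : Matrix (Fin n) (Fin n) K := Matrix.of fun i j => x.repr (m i : V) (.inl j) with hP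
  set Q : Matrix (Fin n) (Fin n) K := Matrix.of fun i j => x.repr (m i : V) (.inr (.inl j)) with hQ
  have hmix : ∀ S, sub x m S = mix S P Q := by
    intro S
    ext i j
    by_cases h : j ∈ S <;> simp [sub, mix, hP, hQ, h]
  have hfe : ∀ i j, b (x (.inr (.inl i))) (x (.inl j)) = if i = j then 1 else 0 := by
    intro i j
    rw [hb, hx.ef]
    by_cases h : i = j
    · subst h
      simp
    · rw [if_neg h, if_neg (Ne.symm h), star_zero]
  have hge : ∀ i, b (x (.inr (.inr ()))) (x (.inl i)) = 0 := by
    intro i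
    rw [hb, hx.eg, star_zero]
  have hgf : ∀ i, b (x (.inr (.inr ()))) (x (.inr (.inl i))) = 0 := by
    intro i
    rw [hb, hx.fg, star_zero]
  have hform : ∀ y z : V, b y z = ∑ i, x.repr y (.inl i) * star (x.repr z (.inr (.inl i))) +
      ∑ i, x.repr y (.inr (.inl i)) * star (x.repr z (.inl i)) +
        α * x.repr y (.inr (.inr ())) * star (x.repr z (.inr (.inr ()))) := by
    intro y z
    have h1 : b y z = ∑ i, ∑ j, x.repr y i * (star (x.repr z j) * b (x i) (x j)) := by
      conv_lhs => rw [← x.sum_repr y, ← x.sum_repr z]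
      simp only [map_sum, LinearMap.sum_apply, map_smul, LinearMap.smul_apply,
        LinearMap.map_smulₛₗ, smul_eq_mul, starRingEnd_apply, Finset.mul_sum]
      rw [Finset.sum_comm]
      refine Finset.sum_congr rfl fun i _ => Finset.sum_congr rfl fun j _ => ?_
      ring
    rw [h1]
    have e1 := hx.ee
    have e2 := hx.ff
    have e3 := hx.ef
    have e4 := hx.eg
    have e5 := hx.fg
    have e6 := hx.gg
    simp only [Fintype.sum_sum_type, Fintype.sum_unique]
    simp only [show (default : Unit) = () from rfl, e1, e2, e3, e4, e5, e6, hfe, hge, hgf]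
    simp
    ring
  have hgram : P * Qᴴ + Q * Pᴴ = Matrix.vecMulVec (fun i => - α * x.repr (m i : V) (.inr (.inr ())))
      (fun i => star (x.repr (m i : V) (.inr (.inr ())))) := by
    ext i j
    have h0 := hL (m i) (m i).2 (m j) (m j).2
    rw [hform] at h0
    simp only [Matrix.add_apply, Matrix.mul_apply, Matrix.conjTranspose_apply, hP, hQ,
      Matrix.of_apply, Matrix.vecMulVec_apply]
    linear_combination h0
  simp only [hmix]
  apply main ν hν
  rw [hgram]
  exact Matrix.rank_vecMulVec_le _ _

end Pool.Agent.Results.MP_973d57_co.IsotropicSubspaces
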